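import Pool.Agent.Lib.EB.Main

namespace Pool.Agent.Results.MP_eb02d8_al.Solvable

open Pool.Agent.Lib.EB

attribute [local instance 100] LieRing.ofAssociativeRing

universe u v

theorem result (k : Type u) [Field k] [CharZero k] (T : Set (FreeLieAlgebra k ℕ))
    (hT : ∃ f ∈ T, ∃ a : ℕ → LieAlgebra.SpecialLinear.sl (Fin 2) k,
      FreeLieAlgebra.lift k a f ≠ 0) :
    ∃ n : ℕ, ∀ (L : Type v) [LieRing L] [LieAlgebra k L],
      (∀ f ∈ T, ∀ a : ℕ → L, FreeLieAlgebra.lift k a f = 0) →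
        LieAlgebra.derivedSeries k L n = ⊥ := by
  refine any_univ k T (final_of (stLIN stHS) all_holds k T fun h => ?_)
  obtain ⟨f, hf, a, ha⟩ := hT
  exact ha (h f hf a)

end Pool.Agent.Results.MP_eb02d8_al.Solvable
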